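import Pool.Agent.Q37.VNum.Star

/-! The slope of the local v-number at a maximal stable prime need not be the initial degree. -/

open MvPolynomial Filter Topology Q37.VNum

namespace Pool.Agent.Results.MP_ad771b_al.DoubleStar

universe u

variable {K : Type u} [Field K] {n : ℕ}

attribute [local instance] MvPolynomial.gradedAlgebra

/-- The ideal `I` of the standard graded polynomial ring is homogeneous. -/
def Homogeneous (I : Ideal (MvPolynomial (Fin n) K)) : Prop :=
  Ideal.IsHomogeneous (homogeneousSubmodule (Fin n) K) I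

/-- The initial degree: the least degree of a nonzero homogeneous element of `I`. -/
noncomputable def initialDegree (I : Ideal (MvPolynomial (Fin n) K)) : ℕ :=
  sInf {d | ∃ f ∈ I, f ≠ 0 ∧ f.IsHomogeneous d}

/-- The local v-number of `I` at `p`: the least degree of a homogeneous `f` with `(I : f) = p`. -/
noncomputable def vNumber (p I : Ideal (MvPolynomial (Fin n) K)) : ℕ :=
  sInf {d | ∃ f : MvPolynomial (Fin n) K, f.IsHomogeneous d ∧ I.colon {f} = p}

/-- The set of associated primes of `I`, that is of the module `S / I`. -/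
def Ass (I : Ideal (MvPolynomial (Fin n) K)) : Set (Ideal (MvPolynomial (Fin n) K)) :=
  associatedPrimes (MvPolynomial (Fin n) K) (MvPolynomial (Fin n) K ⧸ I)

/-- The stable primes of `I`: the primes associated to `I ^ k` for all large `k`. -/
def AssInfty (I : Ideal (MvPolynomial (Fin n) K)) : Set (Ideal (MvPolynomial (Fin n) K)) :=
  {p | ∀ᶠ k : ℕ in atTop, p ∈ Ass (I ^ k)}

/-- The maximal stable primes of `I`. -/
def MaxInfty (I : Ideal (MvPolynomial (Fin n) K)) : Set (Ideal (MvPolynomial (Fin n) K)) :=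
  {p | Maximal (fun q => q ∈ AssInfty I) p}

/-- The assertion of Q1 over the field `K`. -/
def Question (K : Type u) [Field K] : Prop :=
  ∀ (n : ℕ) (I : Ideal (MvPolynomial (Fin n) K)), I ≠ ⊥ → I ≠ ⊤ → Homogeneous I →
    ∀ p ∈ MaxInfty I,
      Tendsto (fun k : ℕ => (vNumber p (I ^ k) : ℝ) / k) atTop (𝓝 (initialDegree I : ℝ))

/-- The ideal `(x₀x₁, x₀x₄x₅, x₁x₂x₃)` of `K[x₀, …, x₅]`. -/
noncomputable def J (K : Type u) [Field K] : Ideal (MvPolynomial (Fin 6) K) :=
  Ideal.span {X 0 * X 1, X 0 * X 4 * X 5, X 1 * X 2 * X 3}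

/-- The ideal `(x₀, x₁)` of `K[x₀, …, x₅]`. -/
noncomputable def P (K : Type u) [Field K] : Ideal (MvPolynomial (Fin 6) K) :=
  Ideal.span {X 0, X 1}

theorem P_eq : P K = varI K (edge 0) := by
  rw [P, varI]
  congr 1
  simp [edge, Set.image_pair]

theorem colon_eq_iff (I p : Ideal (MvPolynomial (Fin n) K)) (f : MvPolynomial (Fin n) K) :
    I.colon {f} = p ↔ ∀ g, g * f ∈ I ↔ g ∈ p := by
  constructor
  · rintro rfl g
    rw [Submodule.mem_colon_singleton, smul_eq_mul]
  · intro h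
    ext g
    rw [Submodule.mem_colon_singleton, smul_eq_mul, h]

theorem mem_Ass_iff (I p : Ideal (MvPolynomial (Fin n) K)) :
    p ∈ Ass I ↔ p.IsPrime ∧ ∃ f : MvPolynomial (Fin n) K, ∀ g, g * f ∈ I ↔ g ∈ p := by
  change IsAssociatedPrime p _ ↔ _
  rw [isAssociatedPrime_iff]
  refine and_congr_right fun _ => ?_
  have key : ∀ f g : MvPolynomial (Fin n) K,
      g ∈ (⊥ : Submodule (MvPolynomial (Fin n) K) (MvPolynomial (Fin n) K ⧸ I)).colon
        {Submodule.Quotient.mk f} ↔ g * f ∈ I := by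
    intro f g
    rw [Submodule.mem_colon_singleton, Submodule.mem_bot, ← Submodule.Quotient.mk_smul,
      Submodule.Quotient.mk_eq_zero, smul_eq_mul]
  constructor
  · rintro ⟨x, hx⟩
    obtain ⟨f, rfl⟩ := Submodule.Quotient.mk_surjective _ x
    exact ⟨f, fun g => by rw [hx, key]⟩
  · rintro ⟨f, hf⟩
    refine ⟨Submodule.Quotient.mk f, ?_⟩
    ext g
    rw [key, hf]

theorem P_mem_Ass (k : ℕ) (hk : 1 ≤ k) : P K ∈ Ass (J K ^ k) := by
  rw [mem_Ass_iff, P_eq]
  exact ⟨varI_prime _, wit K k, colon_wit k hk⟩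

theorem P_mem_MaxInfty : P K ∈ MaxInfty (J K) := by
  refine ⟨?_, ?_⟩
  · exact eventually_atTop.2 ⟨1, fun k hk => P_mem_Ass k hk⟩
  · intro q hq hPq
    obtain ⟨k, hk⟩ := (eventually_atTop.1 hq)
    obtain ⟨hqp, f, hf⟩ := (mem_Ass_iff _ _).1 (hk k le_rfl)
    obtain ⟨i, rfl⟩ := prime_of_colon k q hqp f hf
    have h0 : (X 0 : MvPolynomial (Fin 6) K) ∈ varI K (edge i) :=
      hPq (Ideal.subset_span (by simp))
    have h1 : (X 1 : MvPolynomial (Fin 6) K) ∈ varI K (edge i) :=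
      hPq (Ideal.subset_span (by simp))
    have g0 : (0 : Fin 6) ∈ edge i := by
      by_contra hne
      exact X_notMem hne h0
    have g1 : (1 : Fin 6) ∈ edge i := by
      by_contra hne
      exact X_notMem hne h1
    have hi : i = 0 := by
      have hdec : ∀ i : Fin 5, (0 : Fin 6) ∈ edge i → (1 : Fin 6) ∈ edge i → i = 0 := by decide
      exact hdec i g0 g1
    rw [hi, P_eq]

theorem vNumber_eq (k : ℕ) (hk : 1 ≤ k) : vNumber (P K) (J K ^ k) = 3 * k + 1 := by
  rw [vNumber]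
  apply le_antisymm
  · apply Nat.sInf_le
    refine ⟨wit K k, wit_homogeneous k hk, ?_⟩
    rw [colon_eq_iff, P_eq]
    exact colon_wit k hk
  · apply le_csInf
    · refine ⟨3 * k + 1, wit K k, wit_homogeneous k hk, ?_⟩
      rw [colon_eq_iff, P_eq]
      exact colon_wit k hk
    · rintro d ⟨f, hd, hf⟩
      rw [colon_eq_iff, P_eq] at hf
      exact lower k d f hd hf

theorem initialDegree_eq : initialDegree (J K) = 2 := by
  rw [initialDegree]
  have h2 : (2 : ℕ) ∈ {d | ∃ f ∈ J K, f ≠ 0 ∧ f.IsHomogeneous d} := by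
    refine ⟨X 0 * X 1, Ideal.subset_span (by simp), ?_, ?_⟩
    · exact mul_ne_zero (X_ne_zero _) (X_ne_zero _)
    · exact (isHomogeneous_X K 0).mul (isHomogeneous_X K 1)
  apply le_antisymm
  · exact Nat.sInf_le h2
  · apply le_csInf ⟨2, h2⟩
    rintro d ⟨f, hf, hne, hd⟩
    obtain ⟨a, ha⟩ := ne_zero_iff.1 hne
    have hJ : ∀ i, f ∈ varI K (edge i) ^ 1 := by
      rw [← mem_starJ_pow, pow_one]
      exact hf
    have e0 := (mem_varI_pow_iff _ _ _).1 (hJ 0) a ha
    have e1 := (mem_varI_pow_iff _ _ _).1 (hJ 1) a ha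
    have e3 := (mem_varI_pow_iff _ _ _).1 (hJ 3) a ha
    rw [sdeg0] at e0
    rw [sdeg1] at e1
    rw [sdeg3] at e3
    have hda := hd ha
    have hsum : a 0 + a 1 + a 2 + a 3 + a 4 + a 5 = d := by
      rw [← hda]
      simp [Finsupp.weight_apply, Finsupp.sum_fintype, Fin.sum_univ_six]
    omega

theorem J_ne_bot : J K ≠ ⊥ := by
  intro h
  have : (X 0 * X 1 : MvPolynomial (Fin 6) K) ∈ J K := Ideal.subset_span (by simp)
  rw [h, Ideal.mem_bot] at this
  exact mul_ne_zero (X_ne_zero _) (X_ne_zero _) this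

theorem J_ne_top : J K ≠ ⊤ := by
  intro h
  have h1 : starJ K ≤ varI K (edge 0) := starJ_le 0
  have h2 : (⊤ : Ideal (MvPolynomial (Fin 6) K)) ≤ varI K (edge 0) := by
    rw [← h]; exact h1
  exact varI_ne_top _ (top_le_iff.1 h2)

theorem J_homogeneous : Homogeneous (J K) := by
  apply Ideal.homogeneous_span
  rintro f (rfl | rfl | rfl)
  · exact ⟨2, (isHomogeneous_X K 0).mul (isHomogeneous_X K 1)⟩
  · exact ⟨3, ((isHomogeneous_X K 0).mul (isHomogeneous_X K 4)).mul (isHomogeneous_X K 5)⟩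
  · exact ⟨3, ((isHomogeneous_X K 1).mul (isHomogeneous_X K 2)).mul (isHomogeneous_X K 3)⟩

theorem limit_eq :
    Tendsto (fun k : ℕ => (vNumber (P K) (J K ^ k) : ℝ) / k) atTop (𝓝 3) := by
  have h1 : Tendsto (fun k : ℕ => (3 : ℝ) + 1 / (k : ℝ)) atTop (𝓝 (3 + 0)) :=
    tendsto_const_nhds.add tendsto_one_div_atTop_nhds_zero_nat
  rw [add_zero] at h1
  refine h1.congr' ?_
  filter_upwards [eventually_ge_atTop 1] with k hk
  rw [vNumber_eq k hk]
  have hk' : (k : ℝ) ≠ 0 := by positivity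
  push_cast
  field_simp

/-- Over every field `K`: for `J = (x₀x₁, x₀x₄x₅, x₁x₂x₃)` in `K[x₀, …, x₅]`, the prime
`P = (x₀, x₁)` is a maximal stable prime of `J`, the initial degree of `J` is `2`, the local
v-number of `J ^ k` at `P` is `3 k + 1` for all `k ≥ 1`, so that the limit is `3` and not `2`.
Hence the assertion of Q1 is false over every field. -/
theorem result (K : Type u) [Field K] :
    (J K ≠ ⊥ ∧ J K ≠ ⊤ ∧ Homogeneous (J K) ∧ P K ∈ MaxInfty (J K) ∧ initialDegree (J K) = 2 ∧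
      (∀ k : ℕ, 1 ≤ k → P K ∈ Ass (J K ^ k) ∧ vNumber (P K) (J K ^ k) = 3 * k + 1) ∧
      Tendsto (fun k : ℕ => (vNumber (P K) (J K ^ k) : ℝ) / k) atTop (𝓝 3)) ∧
    ¬ Question K := by
  refine ⟨⟨J_ne_bot, J_ne_top, J_homogeneous, P_mem_MaxInfty, initialDegree_eq,
    fun k hk => ⟨P_mem_Ass k hk, vNumber_eq k hk⟩, limit_eq⟩, ?_⟩
  intro h
  have h1 := h 6 (J K) J_ne_bot J_ne_top J_homogeneous (P K) P_mem_MaxInfty
  rw [initialDegree_eq] at h1
  have h2 := tendsto_nhds_unique h1 limit_eq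
  norm_num at h2

end Pool.Agent.Results.MP_ad771b_al.DoubleStar
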